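import Pool.Agent.Helper52.Tao.Defs

/-!
# The central limit theorem for the number of non-zero digits of a random word

`clt_unif`: for a random word of length `s` over `0, …, d - 1`, the number of non-zero digits is at most
`(1 - 1/d) s + a √((1 - 1/d)(1/d) s)` with a probability which tends to `Φ(u)` for `s → ∞`, `a → u`. The law of the normalised number
of non-zero digits has the characteristic function `φ(t / √s) ^ s`, `φ` the one of a single digit; Mathlib's estimate of this power,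
Lévy's theorem and the portmanteau theorem give the convergence of the distribution functions; the distribution function of the limit is
continuous.
-/

set_option autoImplicit false

namespace Pool.Agent.Helper33.ST

open MeasureTheory ProbabilityTheory Filter Topology Pool.Agent.Helper52.Tao

/-- one normalised digit -/
private noncomputable def x1 (d a : ℕ) : ℝ :=
  ((nz a : ℝ) - (1 - 1 / (d : ℝ))) / Real.sqrt ((1 - 1 / (d : ℝ)) * (1 / (d : ℝ)))

/-- the sum of the normalised digits -/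
private noncomputable def xs (d : ℕ) (w : List ℕ) : ℝ := (w.map (x1 d)).sum

private theorem xs_eq (d : ℕ) (w : List ℕ) :
    xs d w = ((sg w : ℝ) - (1 - 1 / (d : ℝ)) * w.length) / Real.sqrt ((1 - 1 / (d : ℝ)) * (1 / (d : ℝ))) := by
  induction w with
  | nil => simp [xs]
  | cons a w ih =>
    have h1 : xs d (a :: w) = x1 d a + xs d w := by simp [xs]
    rw [h1, ih, x1, sg_cons, List.length_cons, ← add_div]
    push_cast
    congr 1
    ring

private theorem sum_exp (d : ℕ) (c : ℂ) (s : ℕ) :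
    ∑ w ∈ W d s, Complex.exp (c * (xs d w : ℂ)) = (∑ a ∈ Finset.range d, Complex.exp (c * (x1 d a : ℂ))) ^ s := by
  induction s with
  | zero => rw [sum_W_zero]; simp [xs]
  | succ s ih =>
    rw [sum_W_succ, pow_succ', ← ih, Finset.sum_mul]
    refine Finset.sum_congr rfl fun a _ => ?_
    rw [Finset.mul_sum]
    refine Finset.sum_congr rfl fun w _ => ?_
    rw [← Complex.exp_add]
    congr 1
    have h1 : xs d (a :: w) = x1 d a + xs d w := by simp [xs]
    rw [h1]
    push_cast
    ring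

/-- the law of a function on a finite set with the uniform distribution -/
private noncomputable def law {α : Type} (S : Finset α) (f : α → ℝ) : Measure ℝ :=
  ∑ w ∈ S, ENNReal.ofReal (1 / (S.card : ℝ)) • Measure.dirac (f w)

private theorem law_prob {α : Type} {S : Finset α} (hS : S.Nonempty) (f : α → ℝ) : IsProbabilityMeasure (law S f) := by
  refine ⟨?_⟩
  have h0 : (0 : ℝ) < S.card := by exact_mod_cast hS.card_pos
  rw [law, Measure.finsetSum_apply]
  simp only [Measure.smul_apply, measure_univ, smul_eq_mul, mul_one, Finset.sum_const, nsmul_eq_mul]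
  rw [← ENNReal.ofReal_natCast, ← ENNReal.ofReal_mul h0.le, mul_one_div_cancel h0.ne', ENNReal.ofReal_one]

private theorem law_integral {α : Type} {E : Type} [NormedAddCommGroup E] [NormedSpace ℝ E] [CompleteSpace E]
    (S : Finset α) (f : α → ℝ) (g : ℝ → E) :
    ∫ x, g x ∂(law S f) = ∑ w ∈ S, (1 / (S.card : ℝ)) • g (f w) := by
  rw [law, integral_finsetSum_measure]
  · refine Finset.sum_congr rfl fun w _ => ?_
    rw [integral_smul_measure, integral_dirac, ENNReal.toReal_ofReal (by positivity)]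
  · exact fun w _ => (integrable_dirac (by simp)).smul_measure (by simp)

private theorem law_Iic {α : Type} (S : Finset α) (f : α → ℝ) (u : ℝ) [DecidablePred fun w => f w ≤ u] :
    (law S f).real (Set.Iic u) = ((S.filter fun w => f w ≤ u).card : ℝ) / S.card := by
  have h1 : (law S f).real (Set.Iic u) = ∫ x, (Set.Iic u).indicator (fun _ => (1 : ℝ)) x ∂(law S f) := by
    rw [integral_indicator_const _ measurableSet_Iic, smul_eq_mul, mul_one]
  rw [h1, law_integral, Finset.card_filter]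
  push_cast
  rw [Finset.sum_div]
  refine Finset.sum_congr rfl fun w _ => ?_
  by_cases h : f w ≤ u
  · simp [h]
  · simp [h]

private theorem vpos {d : ℕ} (hd : 2 ≤ d) : 0 < (1 - 1 / (d : ℝ)) * (1 / (d : ℝ)) := by
  have h1 : (2 : ℝ) ≤ d := by exact_mod_cast hd
  have h2 : 1 / (d : ℝ) < 1 := by
    rw [div_lt_one (by linarith)]
    linarith
  exact mul_pos (by linarith) (by positivity)

private theorem sum_nz {d : ℕ} (hd : 2 ≤ d) : ∑ a ∈ Finset.range d, (nz a : ℝ) = d - 1 := by
  obtain ⟨k, rfl⟩ : ∃ k, d = k + 1 := ⟨d - 1, by omega⟩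
  rw [Finset.sum_range_succ']
  have h1 : ∀ a ∈ Finset.range k, ((nz (a + 1) : ℕ) : ℝ) = 1 := by
    intro a _
    rw [nz_of_ne (by omega)]
    norm_num
  rw [Finset.sum_congr rfl h1]
  simp

private theorem nz_sq (a : ℕ) : (nz a : ℝ) ^ 2 = nz a := by
  unfold nz
  split_ifs <;> norm_num

private theorem mean_x1 {d : ℕ} (hd : 2 ≤ d) : ∑ a ∈ Finset.range d, (1 / (((Finset.range d).card : ℕ) : ℝ)) • x1 d a = 0 := by
  have h1 : (2 : ℝ) ≤ d := by exact_mod_cast hd
  have h0 : (d : ℝ) ≠ 0 := by positivity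
  simp only [smul_eq_mul, x1]
  rw [← Finset.mul_sum, ← Finset.sum_div, Finset.sum_sub_distrib, sum_nz hd]
  simp only [Finset.sum_const, Finset.card_range, nsmul_eq_mul]
  have h2 : (d : ℝ) - 1 - d * (1 - 1 / (d : ℝ)) = 0 := by
    field_simp
    ring
  rw [h2]
  simp

private theorem var_x1 {d : ℕ} (hd : 2 ≤ d) :
    ∑ a ∈ Finset.range d, (1 / (((Finset.range d).card : ℕ) : ℝ)) • (x1 d a) ^ 2 = 1 := by
  have h1 : (2 : ℝ) ≤ d := by exact_mod_cast hd
  have h0 : (d : ℝ) ≠ 0 := by positivity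
  have hv := vpos hd
  simp only [smul_eq_mul, x1, div_pow, Finset.card_range]
  rw [Real.sq_sqrt hv.le, ← Finset.mul_sum, ← Finset.sum_div]
  have h2 : ∑ a ∈ Finset.range d, ((nz a : ℝ) - (1 - 1 / (d : ℝ))) ^ 2 = d * ((1 - 1 / (d : ℝ)) * (1 / (d : ℝ))) := by
    have h3 : ∀ a ∈ Finset.range d, ((nz a : ℝ) - (1 - 1 / (d : ℝ))) ^ 2 =
        (nz a : ℝ) * (1 - 2 * (1 - 1 / (d : ℝ))) + (1 - 1 / (d : ℝ)) ^ 2 := by
      intro a _
      have := nz_sq a
      linear_combination this
    rw [Finset.sum_congr rfl h3, Finset.sum_add_distrib, ← Finset.sum_mul, sum_nz hd]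
    simp only [Finset.sum_const, Finset.card_range, nsmul_eq_mul]
    field_simp
    ring
  rw [h2, mul_div_assoc, div_self hv.ne', mul_one, one_div, inv_mul_cancel₀ h0]

private theorem W_nonempty {d : ℕ} (hd : 2 ≤ d) (s : ℕ) : (W d s).Nonempty := by
  rw [← Finset.card_pos, card_W]
  positivity

/-- the laws of the normalised numbers of non-zero digits -/
private noncomputable def mu (d s : ℕ) : Measure ℝ := law (W d s) fun w => (Real.sqrt s)⁻¹ * xs d w

private theorem charFun_mu {d : ℕ} (hd : 2 ≤ d) (s : ℕ) (t : ℝ) :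
    charFun (mu d s) t = (charFun ((law (Finset.range d) (x1 d)).map id) ((Real.sqrt s)⁻¹ * t)) ^ s := by
  have h0 : (d : ℂ) ≠ 0 := by
    have : d ≠ 0 := by omega
    exact_mod_cast this
  rw [Measure.map_id, charFun_apply_real, charFun_apply_real, mu, law_integral, law_integral]
  rw [← Finset.smul_sum, ← Finset.smul_sum, card_W, Finset.card_range, smul_pow]
  have h1 : ∀ w ∈ W d s, Complex.exp ((t : ℂ) * (((Real.sqrt s)⁻¹ * xs d w : ℝ) : ℂ) * Complex.I) =
      Complex.exp ((((Real.sqrt s)⁻¹ * t : ℝ) : ℂ) * Complex.I * (xs d w : ℂ)) := by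
    intro w _
    congr 1
    push_cast
    ring
  have h2 : ∀ a ∈ Finset.range d, Complex.exp ((((Real.sqrt s)⁻¹ * t : ℝ) : ℂ) * (x1 d a : ℂ) * Complex.I) =
      Complex.exp ((((Real.sqrt s)⁻¹ * t : ℝ) : ℂ) * Complex.I * (x1 d a : ℂ)) := by
    intro a _
    congr 1
    ring
  rw [Finset.sum_congr rfl h1, Finset.sum_congr rfl h2, sum_exp]
  congr 1
  push_cast
  rw [one_div, one_div, inv_pow]

private theorem tendsto_mu {d : ℕ} (hd : 2 ≤ d) (t : ℝ) :
    Tendsto (fun s : ℕ => charFun (mu d s) t) atTop (𝓝 (charFun (gaussianReal 0 1) t)) := by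
  have := law_prob (S := Finset.range d) ⟨0, Finset.mem_range.2 (by omega)⟩ (x1 d)
  have h1 := tendsto_charFun_inv_sqrt_mul_pow (P := law (Finset.range d) (x1 d)) (X := id) aemeasurable_id
    (by rw [law_integral]; exact mean_x1 hd) (by rw [law_integral]; exact var_x1 hd) t
  have h2 : charFun (gaussianReal 0 1) t = Complex.exp (-(t : ℂ) ^ 2 / 2) := by
    rw [charFun_gaussianReal]
    congr 1
    push_cast
    ring
  rw [h2]
  refine h1.congr fun s => ?_
  rw [charFun_mu hd s t]

private theorem tendsto_Iic {d : ℕ} (hd : 2 ≤ d) (u : ℝ) :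
    Tendsto (fun s : ℕ => (mu d s).real (Set.Iic u)) atTop (𝓝 (cdf (gaussianReal 0 1) u)) := by
  have : ∀ s, IsProbabilityMeasure (mu d s) := fun s => law_prob (W_nonempty hd s) _
  set M : ℕ → ProbabilityMeasure ℝ := fun s => ⟨mu d s, inferInstance⟩ with hM
  set M0 : ProbabilityMeasure ℝ := ⟨gaussianReal 0 1, inferInstance⟩ with hM0
  have h1 : Tendsto M atTop (𝓝 M0) := ProbabilityMeasure.tendsto_iff_tendsto_charFun.2 fun t => tendsto_mu hd t
  have := nullSingletonClass_gaussianReal (μ := 0) (v := 1) one_ne_zero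
  have h2 : (M0 : Measure ℝ) (frontier (Set.Iic u)) = 0 := by
    rw [frontier_Iic]
    change gaussianReal 0 1 {u} = 0
    exact measure_singleton u
  have h3 := ProbabilityMeasure.tendsto_measure_of_null_frontier_of_tendsto' h1 h2
  rw [cdf_eq_real]
  exact (ENNReal.tendsto_toReal (measure_ne_top _ _)).comp h3

private theorem cdf_cont (u : ℝ) : ContinuousAt (cdf (gaussianReal 0 1)) u := by
  have := nullSingletonClass_gaussianReal (μ := 0) (v := 1) one_ne_zero
  have hm := monotone_cdf (gaussianReal 0 1)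
  rw [hm.continuousAt_iff_leftLim_eq_rightLim, StieltjesFunction.rightLim_eq]
  have h1 : (cdf (gaussianReal 0 1)).measure {u} = 0 := by
    rw [measure_cdf]
    exact measure_singleton u
  rw [StieltjesFunction.measure_singleton, ENNReal.ofReal_eq_zero, sub_nonpos] at h1
  exact le_antisymm (hm.leftLim_le le_rfl) h1

private theorem cW_eq {d : ℕ} (hd : 2 ≤ d) {s : ℕ} (hs : 1 ≤ s) (a : ℝ) :
    cW d s (fun w => (sg w : ℝ) ≤ (1 - 1 / (d : ℝ)) * s + a * Real.sqrt ((1 - 1 / (d : ℝ)) * (1 / (d : ℝ)) * s)) / (d : ℝ) ^ s =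
      (mu d s).real (Set.Iic a) := by
  classical
  have hv := vpos hd
  have hs0 : (0 : ℝ) < s := by exact_mod_cast hs
  have hv1 : 0 < Real.sqrt ((1 - 1 / (d : ℝ)) * (1 / (d : ℝ))) := Real.sqrt_pos.2 hv
  have hs1 : 0 < Real.sqrt (s : ℝ) := Real.sqrt_pos.2 hs0
  rw [mu, law_Iic, card_W]
  push_cast
  congr 1
  rw [cW]
  congr 2
  refine Finset.filter_congr fun w hw => ?_
  rw [xs_eq, length_of_mem_W hw, ← div_eq_inv_mul, div_div, div_le_iff₀ (mul_pos hv1 hs1), Real.sqrt_mul hv.le]
  constructor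
  · intro h
    linarith
  · intro h
    linarith

/-- The central limit theorem for the number of non-zero digits, uniformly near `u`. -/
theorem clt_unif {d : ℕ} (hd : 2 ≤ d) (u : ℝ) {ε : ℝ} (hε : 0 < ε) :
    ∃ δ : ℝ, 0 < δ ∧ ∃ S₀ : ℕ, ∀ s : ℕ, S₀ ≤ s → ∀ a : ℝ, |a - u| ≤ δ →
      |cW d s (fun w => (sg w : ℝ) ≤ (1 - 1 / (d : ℝ)) * s + a * Real.sqrt ((1 - 1 / (d : ℝ)) * (1 / (d : ℝ)) * s)) / (d : ℝ) ^ s -
        cdf (gaussianReal 0 1) u| ≤ ε := by
  have : ∀ s, IsProbabilityMeasure (mu d s) := fun s => law_prob (W_nonempty hd s) _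
  obtain ⟨δ, hδ, h1⟩ := Metric.continuousAt_iff.1 (cdf_cont u) (ε / 2) (half_pos hε)
  have h2 := (Metric.tendsto_atTop.1 (tendsto_Iic hd (u - δ / 2))) (ε / 2) (half_pos hε)
  have h3 := (Metric.tendsto_atTop.1 (tendsto_Iic hd (u + δ / 2))) (ε / 2) (half_pos hε)
  obtain ⟨S1, h2⟩ := h2
  obtain ⟨S2, h3⟩ := h3
  refine ⟨δ / 2, half_pos hδ, max 1 (max S1 S2), fun s hs a ha => ?_⟩
  rw [abs_le] at ha
  rw [cW_eq hd (by omega)]
  have h4 := h2 s (by omega)
  have h5 := h3 s (by omega)
  rw [Real.dist_eq, abs_lt] at h4 h5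
  have h6 : dist (u - δ / 2) u < δ := by
    rw [Real.dist_eq, show u - δ / 2 - u = -(δ / 2) by ring, abs_neg, abs_of_pos (half_pos hδ)]
    linarith
  have h7 : dist (u + δ / 2) u < δ := by
    rw [Real.dist_eq, show u + δ / 2 - u = δ / 2 by ring, abs_of_pos (half_pos hδ)]
    linarith
  have h8 := h1 h6
  have h9 := h1 h7
  rw [Real.dist_eq, abs_lt] at h8 h9
  have h10 : (mu d s).real (Set.Iic (u - δ / 2)) ≤ (mu d s).real (Set.Iic a) :=
    measureReal_mono (Set.Iic_subset_Iic.2 (by linarith))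
  have h11 : (mu d s).real (Set.Iic a) ≤ (mu d s).real (Set.Iic (u + δ / 2)) :=
    measureReal_mono (Set.Iic_subset_Iic.2 (by linarith))
  rw [abs_le]
  constructor
  · linarith [h4.1, h8.1]
  · linarith [h5.2, h9.2]

/-- The central limit theorem for the number of non-zero digits. -/
theorem clt_words {d : ℕ} (hd : 2 ≤ d) {u : ℝ} {a : ℕ → ℝ} (ha : Tendsto a atTop (𝓝 u)) :
    Tendsto (fun s : ℕ => cW d s (fun w => (sg w : ℝ) ≤ (1 - 1 / (d : ℝ)) * s +
      a s * Real.sqrt ((1 - 1 / (d : ℝ)) * (1 / (d : ℝ)) * s)) / (d : ℝ) ^ s) atTop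
      (𝓝 (cdf (gaussianReal 0 1) u)) := by
  rw [Metric.tendsto_atTop]
  intro ε hε
  obtain ⟨δ, hδ, S, h1⟩ := clt_unif hd u (half_pos hε)
  obtain ⟨S', h2⟩ := Metric.tendsto_atTop.1 ha δ hδ
  refine ⟨max S S', fun s hs => ?_⟩
  have h3 := h2 s ((le_max_right _ _).trans hs)
  rw [Real.dist_eq] at h3 ⊢
  exact (h1 s ((le_max_left _ _).trans hs) (a s) h3.le).trans_lt (half_lt_self hε)

end Pool.Agent.Helper33.ST
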